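import Mathlib

/-!
# The theorem of Baer and Suzuki (proof of Alperin and Lyons)
-/

set_option autoImplicit false

namespace Pool.Agent.H74.LZ

open scoped Pointwise

variable {M : Type*} [Group M]

/-- if a conjugation invariant set `K` meets the `p`-group `P` in more than `K ∩ P ∩ Q` then an element of the
difference normalises `K ∩ P ∩ Q` -/
theorem exists_normalizing [Finite M] {p : ℕ} [Fact p.Prime] {K : Set M}
    (hK : ∀ g : M, ∀ k ∈ K, g * k * g⁻¹ ∈ K) {P Q : Subgroup M} (hP : IsPGroup p P)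
    (hne : ¬ (K ∩ P ⊆ (Q : Set M))) :
    ∃ x ∈ K ∩ (P : Set M), x ∉ Q ∧ ∀ d ∈ K ∩ (P : Set M) ∩ (Q : Set M),
      x * d * x⁻¹ ∈ K ∩ (P : Set M) ∩ (Q : Set M) ∧ x⁻¹ * d * x ∈ K ∩ (P : Set M) ∩ (Q : Set M) := by
  classical
  -- a maximal subgroup `T ≤ P` with `K ∩ T = K ∩ P ∩ Q`
  let Δ : Set M := K ∩ (P : Set M) ∩ (Q : Set M)
  let 𝒯 : Set (Subgroup M) := {T | T ≤ P ∧ K ∩ (T : Set M) = Δ}
  have hS : P ⊓ Q ∈ 𝒯 := by
    refine ⟨inf_le_left, ?_⟩
    ext t
    simp only [Subgroup.coe_inf, Set.mem_inter_iff, SetLike.mem_coe, Δ]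
    tauto
  have hfin : 𝒯.Finite := Set.toFinite _
  obtain ⟨T, hTm⟩ := hfin.exists_maximal ⟨_, hS⟩
  have hTP : T ≤ P := hTm.prop.1
  have hTK : K ∩ (T : Set M) = Δ := hTm.prop.2
  have hTne : T ≠ P := by
    rintro rfl
    apply hne
    intro t ht
    have h1 : t ∈ Δ := by rw [← hTK]; exact ht
    exact h1.2
  have hTlt : T < P := lt_of_le_of_ne hTP hTne
  -- the normalizer condition in `P`
  have hnil : Group.IsNilpotent P := hP.isNilpotent
  have hT' : T.subgroupOf P < ⊤ := by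
    rw [lt_top_iff_ne_top, Ne, Subgroup.subgroupOf_eq_top]
    exact fun h => hTne (le_antisymm hTP h)
  have hnc := Group.normalizerCondition_of_isNilpotent (G := P) (T.subgroupOf P) hT'
  obtain ⟨y, hyN, hyT⟩ := SetLike.exists_of_lt hnc
  -- `N = N_P(T)` as a subgroup of `M`
  let N : Subgroup M := (Subgroup.normalizer (T.subgroupOf P : Set P)).map P.subtype
  have hNP : N ≤ P := by
    rintro _ ⟨a, _, rfl⟩
    exact a.2
  have hTN : T ≤ N := by
    intro t ht
    exact ⟨⟨t, hTP ht⟩, Subgroup.le_normalizer (H := T.subgroupOf P) ht, rfl⟩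
  have hNT : ¬ N ≤ T := by
    intro h
    exact hyT (h ⟨y, hyN, rfl⟩)
  have hNnorm : ∀ n ∈ N, ∀ t ∈ T, n * t * n⁻¹ ∈ T := by
    rintro _ ⟨a, ha, rfl⟩ t ht
    have h1 := (Subgroup.mem_normalizer_iff.mp ha ⟨t, hTP ht⟩).mp ht
    exact h1
  -- by maximality `K ∩ N ≠ Δ`
  have hNK : ¬ (K ∩ (N : Set M) ⊆ Δ) := by
    intro h
    have h1 : N ∈ 𝒯 := by
      refine ⟨hNP, Set.Subset.antisymm h ?_⟩
      intro t ht
      rw [← hTK] at ht
      exact ⟨ht.1, hTN ht.2⟩
    exact hNT (hTm.le_of_ge h1 hTN)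
  obtain ⟨x, hx, hxΔ⟩ := Set.not_subset.mp hNK
  have hxP : x ∈ P := hNP hx.2
  refine ⟨x, ⟨hx.1, hxP⟩, fun hxQ => hxΔ ⟨⟨hx.1, hxP⟩, hxQ⟩, ?_⟩
  intro d hd
  have hd1 : d ∈ K ∩ (T : Set M) := by rw [hTK]; exact hd
  constructor
  · have h1 : x * d * x⁻¹ ∈ K ∩ (T : Set M) := ⟨hK x d hd1.1, hNnorm x hx.2 d hd1.2⟩
    rw [hTK] at h1; exact h1
  · have h1 : x⁻¹ * d * x ∈ K ∩ (T : Set M) := by
      refine ⟨?_, ?_⟩
      · have := hK x⁻¹ d hd1.1
        rwa [inv_inv] at this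
      · have := hNnorm x⁻¹ (N.inv_mem hx.2) d hd1.2
        rwa [inv_inv] at this
    rw [hTK] at h1; exact h1

/-- **Baer-Suzuki.** If `b` and each of its conjugates generate a `p`-group then the normal closure of `b` is
a `p`-group. -/
theorem baer_suzuki [Finite M] {p : ℕ} [Fact p.Prime] (b : M)
    (h : ∀ g : M, IsPGroup p (Subgroup.closure {b, g * b * g⁻¹})) :
    IsPGroup p (Subgroup.normalClosure {b}) := by
  classical
  let K : Set M := {k | ∃ g : M, k = g * b * g⁻¹}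
  have hK : ∀ g : M, ∀ k ∈ K, g * k * g⁻¹ ∈ K := by
    rintro g _ ⟨a, rfl⟩
    exact ⟨g * a, by group⟩
  have hbK : b ∈ K := ⟨1, by group⟩
  -- any two elements of `K` generate a `p`-group
  have hpair : ∀ x ∈ K, ∀ y ∈ K, IsPGroup p (Subgroup.closure {x, y}) := by
    rintro _ ⟨a, rfl⟩ _ ⟨c, rfl⟩
    have h1 := (h (a⁻¹ * c)).map (MulAut.conj a).toMonoidHom
    refine h1.to_le ?_
    rw [Subgroup.closure_le]
    rintro t (rfl | ht)
    · exact ⟨b, Subgroup.subset_closure (Or.inl rfl), rfl⟩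
    · rw [Set.mem_singleton_iff] at ht
      subst ht
      refine ⟨(a⁻¹ * c) * b * (a⁻¹ * c)⁻¹, Subgroup.subset_closure (Or.inr rfl), ?_⟩
      show a * ((a⁻¹ * c) * b * (a⁻¹ * c)⁻¹) * a⁻¹ = c * b * c⁻¹
      group
  -- all Sylow subgroups meet `K` in sets of the same size
  have hcard : ∀ P Q : Sylow p M, (K ∩ (P : Set M)).ncard = (K ∩ (Q : Set M)).ncard := by
    intro P Q
    obtain ⟨g, rfl⟩ := MulAction.exists_smul_eq M P Q
    have h1 : K ∩ ((g • P : Sylow p M) : Set M) = (fun t => g * t * g⁻¹) '' (K ∩ (P : Set M)) := by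
      ext t
      constructor
      · rintro ⟨ht1, ht2⟩
        refine ⟨g⁻¹ * t * g, ⟨?_, ?_⟩, by group⟩
        · have := hK g⁻¹ t ht1
          rwa [inv_inv] at this
        · have h2 : t ∈ (g • P : Sylow p M) := ht2
          rw [Sylow.smul_def] at h2
          have h3 : t ∈ (MulAut.conj g • (P : Subgroup M)) := h2
          rw [Subgroup.mem_pointwise_smul_iff_inv_smul_mem] at h3
          have h4 : (MulAut.conj g)⁻¹ • t = g⁻¹ * t * g := by
            rw [← map_inv]; show g⁻¹ * t * g⁻¹⁻¹ = _; rw [inv_inv]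
          rw [h4] at h3
          exact h3
      · rintro ⟨s, ⟨hs1, hs2⟩, rfl⟩
        refine ⟨hK g s hs1, ?_⟩
        show g * s * g⁻¹ ∈ (g • P : Sylow p M)
        rw [Sylow.smul_def]
        show g * s * g⁻¹ ∈ (MulAut.conj g • (P : Subgroup M))
        rw [Subgroup.mem_pointwise_smul_iff_inv_smul_mem]
        have h4 : (MulAut.conj g)⁻¹ • (g * s * g⁻¹) = s := by
          rw [← map_inv]; show g⁻¹ * (g * s * g⁻¹) * g⁻¹⁻¹ = _; group
        rw [h4]
        exact hs2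
    rw [h1, Set.ncard_image_of_injective]
    intro a c hac
    have : g * a * g⁻¹ = g * c * g⁻¹ := hac
    exact mul_left_cancel (mul_right_cancel this)
  -- all Sylow subgroups meet `K` in the same set
  have hall : ∀ P Q : Sylow p M, K ∩ (P : Set M) = K ∩ (Q : Set M) := by
    by_contra hcon
    push Not at hcon
    obtain ⟨P₀, Q₀, h0⟩ := hcon
    have hfin : ({PQ : Sylow p M × Sylow p M | K ∩ (PQ.1 : Set M) ≠ K ∩ (PQ.2 : Set M)}).Finite :=
      Set.toFinite _
    have hne0 : ({PQ : Sylow p M × Sylow p M |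
        K ∩ (PQ.1 : Set M) ≠ K ∩ (PQ.2 : Set M)}).Nonempty := ⟨(P₀, Q₀), h0⟩
    obtain ⟨⟨P, Q⟩, hPQ, hmax⟩ := Set.Finite.exists_maximalFor
      (fun PQ : Sylow p M × Sylow p M => (K ∩ (PQ.1 : Set M) ∩ (PQ.2 : Set M)).ncard) _ hfin hne0
    have hmax' : ∀ R S : Sylow p M, K ∩ (R : Set M) ≠ K ∩ (S : Set M) →
        (K ∩ (R : Set M) ∩ (S : Set M)).ncard ≤ (K ∩ (P : Set M) ∩ (Q : Set M)).ncard := by
      intro R S hRS
      by_contra hlt
      push Not at hlt
      have := hmax (j := (R, S)) hRS hlt.le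
      exact absurd this (not_le.mpr hlt)
    have hPQ' : K ∩ (P : Set M) ≠ K ∩ (Q : Set M) := hPQ
    have hn1 : ¬ (K ∩ (P : Set M) ⊆ (Q : Set M)) := by
      intro hsub
      exact hPQ' (Set.eq_of_subset_of_ncard_le (fun t ht => ⟨ht.1, hsub ht⟩)
        (hcard Q P).le (Set.toFinite _))
    have hn2 : ¬ (K ∩ (Q : Set M) ⊆ (P : Set M)) := by
      intro hsub
      have hsub' : K ∩ (Q : Set M) ⊆ K ∩ (P : Set M) := fun t ht => ⟨ht.1, hsub ht⟩
      exact hPQ' (Set.eq_of_subset_of_ncard_le hsub' (hcard P Q).le (Set.toFinite _)).symm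
    obtain ⟨x, hxP, hxQ, hxn⟩ := exists_normalizing hK P.isPGroup' hn1
    obtain ⟨y, hyQ, hyP, hyn⟩ := exists_normalizing hK Q.isPGroup' hn2
    have hsymm : K ∩ ((Q : Subgroup M) : Set M) ∩ ((P : Subgroup M) : Set M) =
        K ∩ ((P : Subgroup M) : Set M) ∩ ((Q : Subgroup M) : Set M) := by
      ext t
      simp only [Set.mem_inter_iff]
      tauto
    rw [hsymm] at hyn
    let Δ : Set M := K ∩ ((P : Subgroup M) : Set M) ∩ ((Q : Subgroup M) : Set M)
    have hmaxΔ : ∀ R S : Sylow p M, K ∩ (R : Set M) ≠ K ∩ (S : Set M) →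
        (K ∩ (R : Set M) ∩ (S : Set M)).ncard ≤ Δ.ncard := hmax'
    let S : Subgroup M := Subgroup.closure Δ
    let U : Subgroup M := Subgroup.closure {x, y}
    have hSP : S ≤ (P : Subgroup M) := by
      rw [Subgroup.closure_le]
      exact fun t ht => ht.1.2
    have hSp : IsPGroup p S := P.isPGroup'.to_le hSP
    have hUp : IsPGroup p U := hpair x hxP.1 y hyQ.1
    have hnorm : ∀ w : M, (∀ d ∈ Δ, w * d * w⁻¹ ∈ Δ ∧ w⁻¹ * d * w ∈ Δ) →
        w ∈ Subgroup.normalizer (S : Set M) := by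
      intro w hw
      rw [Subgroup.mem_normalizer_iff]
      intro t
      have hone : ∀ v : M, (∀ d ∈ Δ, v * d * v⁻¹ ∈ Δ) → ∀ s ∈ S, v * s * v⁻¹ ∈ S := by
        intro v hv s hs
        refine Subgroup.closure_induction (p := fun s _ => v * s * v⁻¹ ∈ S)
          (fun d hd => Subgroup.subset_closure (hv d hd)) ?_ ?_ ?_ hs
        · simp
        · intro a c _ _ ha hc
          have : v * (a * c) * v⁻¹ = (v * a * v⁻¹) * (v * c * v⁻¹) := by group
          rw [this]; exact S.mul_mem ha hc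
        · intro a _ ha
          have : v * a⁻¹ * v⁻¹ = (v * a * v⁻¹)⁻¹ := by group
          rw [this]; exact S.inv_mem ha
      constructor
      · exact fun ht => hone w (fun d hd => (hw d hd).1) t ht
      · intro ht
        have h1 := hone w⁻¹ (fun d hd => by rw [inv_inv]; exact (hw d hd).2) _ ht
        have h2 : w⁻¹ * (w * t * w⁻¹) * w⁻¹⁻¹ = t := by group
        rwa [h2] at h1
    have hUS : U ≤ Subgroup.normalizer (S : Set M) := by
      rw [Subgroup.closure_le]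
      rintro t (rfl | ht)
      · exact hnorm _ hxn
      · rw [Set.mem_singleton_iff] at ht
        subst ht
        exact hnorm _ hyn
    have hsup : IsPGroup p (U ⊔ S : Subgroup M) := hUp.to_sup_of_normal_right' hSp hUS
    obtain ⟨R, hR⟩ := hsup.exists_le_sylow
    have hxR : x ∈ (R : Subgroup M) := hR (Subgroup.mem_sup_left (Subgroup.subset_closure (Or.inl rfl)))
    have hyR : y ∈ (R : Subgroup M) := hR (Subgroup.mem_sup_left (Subgroup.subset_closure (Or.inr rfl)))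
    have hΔR : ∀ d ∈ Δ, d ∈ (R : Subgroup M) := fun d hd =>
      hR (Subgroup.mem_sup_right (Subgroup.subset_closure hd))
    have h1 : K ∩ (P : Set M) = K ∩ (R : Set M) := by
      by_contra hne
      have h2 := hmaxΔ P R hne
      have h3 : Δ.ncard < (K ∩ (P : Set M) ∩ (R : Set M)).ncard := by
        refine Set.ncard_lt_ncard ⟨fun d hd => ⟨hd.1, hΔR d hd⟩, ?_⟩ (Set.toFinite _)
        intro hsub
        exact hxQ (hsub ⟨hxP, hxR⟩).2
      omega
    have h2 : K ∩ (Q : Set M) = K ∩ (R : Set M) := by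
      by_contra hne
      have h2 := hmaxΔ Q R hne
      have h3 : Δ.ncard < (K ∩ (Q : Set M) ∩ (R : Set M)).ncard := by
        refine Set.ncard_lt_ncard ⟨fun d hd => ⟨⟨hd.1.1, hd.2⟩, hΔR d hd⟩, ?_⟩ (Set.toFinite _)
        intro hsub
        exact hyP (hsub ⟨hyQ, hyR⟩).1.2
      omega
    exact hPQ' (h1.trans h2.symm)
  -- the Sylow subgroup which contains `b` contains `K`
  have hb1 : IsPGroup p (Subgroup.closure {b, 1 * b * 1⁻¹}) := h 1
  obtain ⟨P, hP⟩ := hb1.exists_le_sylow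
  have hbP : b ∈ (P : Subgroup M) := hP (Subgroup.subset_closure (Or.inl rfl))
  have hKP : ∀ k ∈ K, k ∈ (P : Subgroup M) := by
    rintro _ ⟨g, rfl⟩
    have h1 : g * b * g⁻¹ ∈ K ∩ ((g • P : Sylow p M) : Set M) := by
      refine ⟨⟨g, rfl⟩, ?_⟩
      show g * b * g⁻¹ ∈ (g • P : Sylow p M)
      rw [Sylow.smul_def]
      show g * b * g⁻¹ ∈ (MulAut.conj g • (P : Subgroup M))
      rw [Subgroup.mem_pointwise_smul_iff_inv_smul_mem]
      have h4 : (MulAut.conj g)⁻¹ • (g * b * g⁻¹) = b := by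
        rw [← map_inv]; show g⁻¹ * (g * b * g⁻¹) * g⁻¹⁻¹ = _; group
      rw [h4]
      exact hbP
    rw [hall (g • P) P] at h1
    exact h1.2
  refine P.isPGroup'.to_le ?_
  rw [Subgroup.normalClosure, Subgroup.closure_le]
  intro t ht
  rw [Group.mem_conjugatesOfSet_iff] at ht
  obtain ⟨a, ha, hat⟩ := ht
  rw [Set.mem_singleton_iff] at ha
  subst ha
  obtain ⟨g, hg⟩ := isConj_iff.mp hat
  exact hKP t ⟨g, hg.symm⟩

end Pool.Agent.H74.LZ
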