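import Mathlib

set_option autoImplicit false

/-!
Pure group theory of the case `lam = z` (helper15, note 6676).
-/

namespace Pool.Agent.H74.LZ

/-- steps (i)-(vii): `L = L_y`, `z = z_y = L_y^2`, `J` the inversion, `v = L_s`, `w = R_s`, `b = w v⁻¹`,
`L⁻¹ w L = d w`. -/
theorem z_alg {M : Type*} [Group M] {J L z v w b d : M} (hJ : J * J = 1) (hz : z * z = 1)
    (hL : L * L = z) (hR : J * L * J = z * L) (hzJ : z * J = J * z) (hb : b = w * v⁻¹)
    (hJv : J * v * J = w⁻¹) (hvw : v * w = w * v) (hd : L⁻¹ * w * L = d * w)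
    (hdJ : d * J = J * d) (hdv : d * v = v * d) (hdw : d * w = w * d)
    (hB : w * (z * v * z) = (z * v * z) * w) (hA : v * (L * b * L⁻¹) = (L * b * L⁻¹) * v) :
    b * (z * b * z) = (z * b * z) * b := by
  have hz' : z⁻¹ = z := inv_eq_of_mul_eq_one_left hz
  have hJ' : J⁻¹ = J := inv_eq_of_mul_eq_one_left hJ
  have hJw : J * w * J = v⁻¹ := by
    have h1 : w = (J * v * J)⁻¹ := by rw [hJv, inv_inv]
    rw [h1]
    calc J * (J * v * J)⁻¹ * J = (J * J⁻¹) * v⁻¹ * (J⁻¹ * J) := by group
      _ = v⁻¹ := by group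
  -- `J * L * J = L⁻¹`
  have hRi : J * L * J = L⁻¹ := by
    have h1 : z * L * L = 1 := by rw [mul_assoc, hL, hz]
    rw [hR]
    exact eq_inv_of_mul_eq_one_left h1
  have hRi' : J * L⁻¹ * J = L := by
    calc J * L⁻¹ * J = J * (J * L * J) * J := by rw [hRi]
      _ = (J * J) * L * (J * J) := by group
      _ = L := by rw [hJ, one_mul, mul_one]
  -- (ii)
  have h2 : L * v * L⁻¹ = d⁻¹ * v := by
    have h1 : J * (L⁻¹ * w * L) * J = J * (d * w) * J := by rw [hd]
    have h3 : J * (L⁻¹ * w * L) * J = L * v⁻¹ * L⁻¹ := by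
      calc J * (L⁻¹ * w * L) * J = (J * L⁻¹) * w * (L * J) := by group
        _ = (J * L⁻¹ * (J * J)) * w * ((J * J) * L * J) := by rw [hJ, mul_one, one_mul]
        _ = (J * L⁻¹ * J) * (J * w * J) * (J * L * J) := by group
        _ = L * v⁻¹ * L⁻¹ := by rw [hRi', hJw, hRi]
    have h4 : J * (d * w) * J = d * v⁻¹ := by
      calc J * (d * w) * J = (J * d) * w * J := by group
        _ = (d * J) * w * J := by rw [hdJ]
        _ = d * (J * w * J) := by group
        _ = d * v⁻¹ := by rw [hJw]
    rw [h3, h4] at h1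
    have h5 : L * v * L⁻¹ = (L * v⁻¹ * L⁻¹)⁻¹ := by group
    have h6 : Commute d v := hdv
    rw [h5, h1, mul_inv_rev, inv_inv]
    exact (h6.inv_left.eq).symm
  -- `b` commutes with `v`, `w`, `d`
  have cvw : Commute v w := hvw
  have cdv : Commute d v := hdv
  have cdw : Commute d w := hdw
  have cbv : Commute b v := by rw [hb]; exact cvw.symm.mul_left (Commute.refl v).inv_left
  have cbw : Commute b w := by rw [hb]; exact (Commute.refl w).mul_left cvw.inv_left
  have cdb : Commute d b := by rw [hb]; exact cdw.mul_right cdv.inv_right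
  -- (iii)
  have hwbv : w = b * v := by rw [hb]; group
  obtain ⟨del, hdel⟩ : ∃ del, del = b * d := ⟨_, rfl⟩
  have c1v : Commute del v := by rw [hdel]; exact cbv.mul_left cdv
  have c1w : Commute del w := by rw [hdel]; exact cbw.mul_left cdw
  have h3a : L⁻¹ * w * L = del * v := by
    rw [hd, hdel, hwbv, ← mul_assoc, cdb.eq]
  have h3b : L * v * L⁻¹ = del⁻¹ * w := by
    rw [h2, hdel, hwbv]
    calc d⁻¹ * v = d⁻¹ * (b⁻¹ * b) * v := by group
      _ = (b * d)⁻¹ * (b * v) := by group
  have h3c : L * del * L⁻¹ = del := by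
    have e1 : w = (L * del * L⁻¹) * (L * v * L⁻¹) := by
      calc w = L * (L⁻¹ * w * L) * L⁻¹ := by group
        _ = L * (del * v) * L⁻¹ := by rw [h3a]
        _ = (L * del * L⁻¹) * (L * v * L⁻¹) := by group
    rw [h3b] at e1
    have e2 : (L * del * L⁻¹) * del⁻¹ = 1 := by
      have e3 : w = ((L * del * L⁻¹) * del⁻¹) * w := by
        calc w = (L * del * L⁻¹) * (del⁻¹ * w) := e1
          _ = ((L * del * L⁻¹) * del⁻¹) * w := by group
      exact mul_eq_right.1 e3.symm
    exact mul_inv_eq_one.1 e2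
  have c1L : Commute del L := by
    have h1 : L * del = del * L := by
      calc L * del = (L * del * L⁻¹) * L := by group
        _ = del * L := by rw [h3c]
    exact h1.symm
  have c1z : Commute del z := by rw [← hL]; exact c1L.mul_right c1L
  -- (iv)
  have h4 : L * w * L⁻¹ = del * (z * v * z) := by
    calc L * w * L⁻¹ = (L * L) * (L⁻¹ * w * L) * (L * L)⁻¹ := by group
      _ = z * (del * v) * z⁻¹ := by rw [hL, h3a]
      _ = (z * del) * v * z := by rw [hz']; group
      _ = (del * z) * v * z := by rw [c1z.eq]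
      _ = del * (z * v * z) := by group
  -- (v)
  have h5 : L * b * L⁻¹ = del * (z * v * z) * (w⁻¹ * del) := by
    calc L * b * L⁻¹ = (L * w * L⁻¹) * (L * v * L⁻¹)⁻¹ := by rw [hb]; group
      _ = del * (z * v * z) * (w⁻¹ * del) := by rw [h4, h3b]; group
  -- (vi)
  have h6 : Commute v (z * v * z) := by
    have e1 : Commute v (L * b * L⁻¹) := hA
    have e2 : z * v * z = del⁻¹ * (L * b * L⁻¹) * (w⁻¹ * del)⁻¹ := by
      rw [h5]; group
    rw [e2]
    exact (c1v.symm.inv_right.mul_right e1).mul_right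
      (cvw.inv_right.mul_right c1v.symm).inv_right
  -- (vii)
  have conjJ : ∀ {a a' : M}, Commute a a' → Commute (J * a * J) (J * a' * J) := by
    intro a a' haa
    show J * a * J * (J * a' * J) = J * a' * J * (J * a * J)
    calc J * a * J * (J * a' * J) = J * a * (J * J) * a' * J := by group
      _ = J * (a * a') * J := by rw [hJ]; group
      _ = J * (a' * a) * J := by rw [haa.eq]
      _ = J * a' * (J * J) * a * J := by rw [hJ]; group
      _ = J * a' * J * (J * a * J) := by group
  have jz : ∀ a : M, J * (z * a * z) * J = z * (J * a * J) * z := by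
    intro a
    calc J * (z * a * z) * J = (J * z) * a * (z * J) := by group
      _ = (z * J) * a * (J * z) := by rw [hzJ]
      _ = z * (J * a * J) * z := by group
  have zi : ∀ a : M, z * a⁻¹ * z = (z * a * z)⁻¹ := by
    intro a
    calc z * a⁻¹ * z = z⁻¹ * a⁻¹ * z⁻¹ := by rw [hz']
      _ = (z * a * z)⁻¹ := by group
  have h7 : Commute w (z * w * z) := by
    have e1 := conjJ h6
    rw [jz, hJv, zi] at e1
    exact Commute.inv_inv_iff.1 e1
  have h8 : Commute w (z * v * z) := hB
  have h9 : Commute v (z * w * z) := by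
    have e1 := conjJ h8
    rw [jz, hJw, hJv, zi] at e1
    exact Commute.inv_inv_iff.1 e1
  have e : z * b * z = (z * w * z) * (z * v * z)⁻¹ := by
    rw [hb, ← zi]
    calc z * (w * v⁻¹) * z = z * w * (z * z) * v⁻¹ * z := by rw [hz]; group
      _ = (z * w * z) * (z * v⁻¹ * z) := by group
  show Commute b (z * b * z)
  rw [e]
  have k1 : Commute w ((z * w * z) * (z * v * z)⁻¹) := h7.mul_right h8.inv_right
  have k2 : Commute v ((z * w * z) * (z * v * z)⁻¹) := h9.mul_right h6.inv_right
  rw [hb]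
  exact k1.mul_left k2.inv_left

/-- the case `L² = 1`: `d` commutes with `L` and `w`, so `d² = 1`; `d` of odd order -/
theorem one_alg {M : Type*} [Group M] {L w d : M} (hL : L * L = 1) (hd : L⁻¹ * w * L = d * w)
    (hdL : d * L = L * d) {n : ℕ} (hn : Odd n) (hdn : d ^ n = 1) :
    w * L = L * w := by
  have hL' : L⁻¹ = L := inv_eq_of_mul_eq_one_left hL
  have h1 : w = d * d * w := by
    calc w = (L * L)⁻¹ * w * (L * L) := by rw [hL]; group
      _ = L⁻¹ * (L⁻¹ * w * L) * L := by group
      _ = L⁻¹ * (d * w) * L := by rw [hd]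
      _ = L⁻¹ * (d * L) * (L⁻¹ * w * L) := by group
      _ = L⁻¹ * (L * d) * (d * w) := by rw [hdL, hd]
      _ = d * d * w := by group
  have h2 : d ^ 2 = 1 := by rw [pow_two]; exact mul_eq_right.1 h1.symm
  have h3 : d = 1 := by
    obtain ⟨k, hk⟩ := hn
    rw [hk, pow_succ, pow_mul, h2, one_pow, one_mul] at hdn
    exact hdn
  rw [h3, one_mul] at hd
  calc w * L = L * (L⁻¹ * w * L) := by group
    _ = L * w := by rw [hd]

end Pool.Agent.H74.LZ
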