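import Pool.Agent.H74.LZ.LamT
import Pool.Agent.H74.LZ.ZAlg
import Pool.Agent.H81.LO.Cent
import Pool.Agent.H98.FT.Bas

set_option autoImplicit false

/-!
The two endings: `L_x² = 1` and `L_x² = z_x`, from the facts (1), (3), (4) of helper98's note.
-/

namespace ALoop

open Equiv

variable {Q : Type*} {G : Subgroup (Perm Q)} {L : Q → Perm Q} {J : Perm Q} {e : Q}

namespace AL

/-- (ZIP) for the class of `x` -/
theorem zip_class74 [Finite Q] (h : AL G L J e) (hcardQ : 2 ∣ Nat.card Q) {x : Q} (hJx : J x = x)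
    (hxe : x ≠ e) {b : Perm Q} (hb : b ∈ Inn G e) (hodd : Odd (orderOf b))
    (hzb : (D L J x * J) * b * (D L J x * J) = b⁻¹)
    (hw : ∀ g ∈ Inn G e,
      Commute b ((D L J (g x) * J) * b * (D L J (g x) * J))) : b = 1 := by
  classical
  by_contra hb1
  have hpos := orderOf_pos b
  have hne1 : orderOf b ≠ 1 := fun h1 => hb1 (orderOf_eq_one_iff.1 h1)
  obtain ⟨p, hp, hpd⟩ := Nat.exists_prime_and_dvd hne1
  have : Fact p.Prime := ⟨hp⟩
  have hp2 : p ≠ 2 := by
    rintro rfl
    exact (Nat.not_even_iff_odd.2 hodd) (even_iff_two_dvd.2 hpd)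
  obtain ⟨k, hk⟩ := hpd
  set c := b ^ k with hc
  have hcI : c ∈ Inn G e := (Inn G e).pow_mem hb k
  have hcp : c ^ p = 1 := by rw [hc, ← pow_mul, mul_comm k p, ← hk, pow_orderOf_eq_one]
  have hc1 : c ≠ 1 := by
    intro h1
    have h2 : orderOf b ∣ k := orderOf_dvd_of_pow_eq_one h1
    have hkpos : 0 < k := by
      rcases Nat.eq_zero_or_pos k with h3 | h3
      · rw [h3, mul_zero] at hk; omega
      · exact h3
    have h3 := Nat.le_of_dvd hkpos h2
    have h4 := hp.two_le
    nlinarith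
  have conjk : ∀ w : Perm Q, w * w = 1 → w * c * w = (w * b * w) ^ k := by
    intro w hww
    have hwi : w⁻¹ = w := inv_eq_of_mul_eq_one_left hww
    have h1 := conj_pow (i := k) (a := w) (b := b)
    rw [hwi] at h1
    exact h1.symm
  have hEx : D L J x * J ∈ EE L J e := ⟨x, hJx, hxe, rfl⟩
  let E : Set (Inn G e) := {w | ∃ g : Inn G e, (w : Perm Q) = D L J ((g : Perm Q) x) * J}
  have hEE : ∀ w ∈ E, (w : Perm Q) ∈ EE L J e := by
    rintro w ⟨g, hg⟩
    obtain ⟨h1, h2⟩ := h.inv_pt74 g.2 hJx hxe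
    exact ⟨_, h1, h2, hg⟩
  have key := Pool.Agent.H53.AL.claim_normal (M := Inn G e) p hp2 E
    (fun w hw => Subtype.ext (h.EE_sq (hEE w hw)))
    (by
      rintro w ⟨g, hg⟩ k
      refine ⟨k * g, ?_⟩
      show (k : Perm Q) * w * (k : Perm Q)⁻¹ = _
      rw [hg, h.zu_conj74 k.2]
      rfl)
    ⟨c, hcI⟩ ⟨D L J x * J, h.EE_Inn hEx⟩ (Subtype.ext hcp) ⟨1, rfl⟩
    (Subtype.ext (by
      show (D L J x * J) * c * (D L J x * J) = c⁻¹
      rw [conjk _ (h.EE_sq hEx), hzb, hc, inv_pow]))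
    (by
      rintro ⟨w, hwI⟩ ⟨g, hg⟩
      have hg' : w = D L J ((g : Perm Q) x) * J := hg
      have h1 := hw g g.2
      have hww := h.EE_sq (hEE ⟨w, hwI⟩ ⟨g, hg⟩)
      rw [← hg'] at h1
      have h2 := (h1.pow_pow k k)
      rw [← hc, ← conjk _ hww] at h2
      exact Subtype.ext h2.eq)
  obtain ⟨N, hN, hNp, hcN⟩ := key
  have hsol : Group.IsSolvable N := by
    have : Finite N := inferInstance
    have := hNp.isNilpotent
    infer_instance
  have h1 := h.no_solvable hcardQ N hN hsol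
  rw [h1, Subgroup.mem_bot] at hcN
  exact hc1 (congrArg Subtype.val hcN)

/-- (1): `L_q c² L_q⁻¹ = R_x (w⁻¹ * (D_q w D_q)) R_x⁻¹` -/
theorem one_form74 (h : AL G L J e) {x : Q} {c : Perm Q} (o : KX G L J e x c) (q : Q) :
    L q * (c * c) * (L q)⁻¹ =
      rt L J x * ((pr L x c * c)⁻¹ * (D L J q * (pr L x c * c) * D L J q)) * (rt L J x)⁻¹ := by
  obtain ⟨h1, h2, h3, h4⟩ := h.b_cx o
  have hRG : ∀ r, rt L J r ∈ G := fun r => h.memR r
  have e1 : L q * D L J (c x) * (L q)⁻¹ = rt L J (c x) * D L J q * (rt L J (c x))⁻¹ := by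
    rw [h.D_conj (h.memL q), h.D_conj (hRG _)]
    congr 1
    exact (h.R_apply _ _).symm
  have e2 : L q * D L J x * (L q)⁻¹ = rt L J x * D L J q * (rt L J x)⁻¹ := by
    rw [h.D_conj (h.memL q), h.D_conj (hRG _)]
    congr 1
    exact (h.R_apply _ _).symm
  have e3 : c * c = D L J (c x) * D L J x := by
    rw [h2, mul_assoc, h.D_sq, mul_one]
  have hDi : (D L J q)⁻¹ = D L J q := inv_eq_of_mul_eq_one_left (h.D_sq q)
  calc L q * (c * c) * (L q)⁻¹ = (L q * D L J (c x) * (L q)⁻¹) * (L q * D L J x * (L q)⁻¹) := by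
        rw [e3]; group
    _ = (rt L J (c x) * D L J q * (rt L J (c x))⁻¹) * (rt L J x * D L J q * (rt L J x)⁻¹) := by
        rw [e1, e2]
    _ = _ := by rw [h4]; group

/-- the case `L_x² = z_x`: `c² = 1` -/
theorem lam_z_end74 [Finite Q] (h : AL G L J e) (hcardQ : 2 ∣ Nat.card Q) {x : Q} {c : Perm Q}
    (o : KX G L J e x c) (hl : L x * L x = D L J x * J)
    (hone : ∀ q, (pr L x c * c) * (D L J q * (pr L x c * c) * D L J q) =
      (D L J q * (pr L x c * c) * D L J q) * (pr L x c * c))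
    (hk : L (sp L x c) = pr L x c * c⁻¹)
    (hfour : ∀ q, ((L q)⁻¹ * (pr L x c * c) * L q * (pr L x c * c)⁻¹ ∈ Inn G e ∧
      ((L q)⁻¹ * (pr L x c * c) * L q * (pr L x c * c)⁻¹) (sp L x c) = sp L x c ∧
      ((L q)⁻¹ * (pr L x c * c) * L q * (pr L x c * c)⁻¹) * (pr L x c * c) =
        (pr L x c * c) * ((L q)⁻¹ * (pr L x c * c) * L q * (pr L x c * c)⁻¹))) :
    c = 1 := by
  obtain ⟨hJx, hxe⟩ := o.Iv
  obtain ⟨z1, z2, z3, z4, z5, z6, z7⟩ := h.b_zz o.Iv
  obtain ⟨p1, p2, p3, p4⟩ := h.b_pr o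
  have hcJ : c * J = J * c := h.comJ c o.mem.1 o.mem.2
  have hJJ := h.JJ1
  have hDxJ := h.Dx_J hJx
  have hzc : (D L J x * J) * c * (D L J x * J) = c⁻¹ := by
    calc (D L J x * J) * c * (D L J x * J) = D L J x * (J * c) * (D L J x * J) := by group
      _ = D L J x * (c * J) * (J * D L J x) := by rw [hcJ, hDxJ]
      _ = D L J x * c * (J * J) * D L J x := by group
      _ = c⁻¹ := by rw [hJJ, mul_one]; exact o.inv
  obtain ⟨n, hn, hcn⟩ := o.odd
  have hodd : Odd (orderOf c) := hn.of_dvd_nat (orderOf_dvd_of_pow_eq_one hcn)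
  set c' := pr L x c with hc'
  have hvw : (c' * c⁻¹) * (c' * c) = (c' * c) * (c' * c⁻¹) := by
    have h1 : Commute c' c := p4
    have h2 : Commute (c' * c⁻¹) (c' * c) :=
      ((Commute.refl c').mul_left h1.symm.inv_left).mul_right
        (h1.mul_left (Commute.refl c).inv_left)
    exact h2.eq
  have hbb : c * c = (c' * c) * (c' * c⁻¹)⁻¹ := by
    calc c * c = c * (c' * c) * c'⁻¹ := by rw [p4]; group
      _ = (c * c') * c * c'⁻¹ := by group
      _ = (c' * c) * c * c'⁻¹ := by rw [p4]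
      _ = _ := by group
  have hJv : J * (c' * c⁻¹) * J = (c' * c)⁻¹ := by
    have h1 : c * c' = c' * c := p4.symm
    have h2 : J * c⁻¹ = c⁻¹ * J := by
      have h3 : Commute c J := hcJ
      exact h3.inv_left.eq.symm
    calc J * (c' * c⁻¹) * J = (J * c' * J) * (J * c⁻¹ * J) := by
          calc J * (c' * c⁻¹) * J = J * c' * 1 * c⁻¹ * J := by group
            _ = J * c' * (J * J) * c⁻¹ * J := by rw [hJJ]
            _ = (J * c' * J) * (J * c⁻¹ * J) := by group
      _ = c'⁻¹ * (c⁻¹ * (J * J)) := by rw [p3, h2]; group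
      _ = (c * c')⁻¹ := by rw [hJJ]; group
      _ = (c' * c)⁻¹ := by rw [h1]
  -- `R_x w R_x⁻¹ = v`
  have hRx : rt L J x = (L x)⁻¹ := by
    have h1 : rt L J x * L x = 1 := by
      rw [z1, mul_assoc, hl]
      exact z4
    exact eq_inv_of_mul_eq_one_left h1
  have hRw : rt L J x * (c' * c) * (rt L J x)⁻¹ = c' * c⁻¹ := by
    have hzi : (D L J x * J)⁻¹ = D L J x * J := inv_eq_of_mul_eq_one_left z4
    have h1 : (L x)⁻¹ * c' * L x = c⁻¹ := by
      calc (L x)⁻¹ * c' * L x = (L x * L x)⁻¹ * c * (L x * L x) := by rw [hc']; unfold pr; group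
        _ = c⁻¹ := by rw [hl, hzi]; exact hzc
    calc rt L J x * (c' * c) * (rt L J x)⁻¹ = ((L x)⁻¹ * c' * L x) * ((L x)⁻¹ * c * L x) := by
          rw [hRx]; group
      _ = c⁻¹ * c' := by rw [h1]; rfl
      _ = c' * c⁻¹ := by
          have h2 : Commute c' c := p4
          exact h2.inv_right.eq.symm
  -- the commutation with `z_y c² z_y`
  have hcc : c * c = 1 := by
    have hc2 : c * c = c ^ 2 := (pow_two c).symm
    refine h.zip_class74 hcardQ hJx hxe ((Inn G e).mul_mem o.mem o.mem) ?_ ?_ ?_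
    · refine hn.of_dvd_nat (orderOf_dvd_of_pow_eq_one ?_)
      rw [hc2, ← pow_mul, mul_comm, pow_mul, hcn, one_pow]
    · calc (D L J x * J) * (c * c) * (D L J x * J) =
          ((D L J x * J) * c * (D L J x * J)) * ((D L J x * J) * c * (D L J x * J)) := by
            have z4' : (D L J x * J) * (D L J x * J) = 1 := z4
            calc (D L J x * J) * (c * c) * (D L J x * J) =
                (D L J x * J) * c * 1 * c * (D L J x * J) := by group
              _ = (D L J x * J) * c * ((D L J x * J) * (D L J x * J)) * c * (D L J x * J) := by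
                  rw [z4']
              _ = _ := by group
        _ = (c * c)⁻¹ := by rw [hzc]; group
    · intro g hg
      obtain ⟨hJy, hye⟩ := h.inv_pt74 hg hJx hxe
      set y := g x with hy
      obtain ⟨y1, y2, y3, y4, y5, y6, y7⟩ := h.b_zz (x := y) ⟨hJy, hye⟩
      have hly : L y * L y = D L J y * J := by
        rw [hy, ← h.lu_conj74 hg, ← h.zu_conj74 hg, hl]
      obtain ⟨d1, d2, d3⟩ := hfour y
      set d := (L y)⁻¹ * (c' * c) * L y * (c' * c)⁻¹ with hd
      have hDyJ := h.Dx_J hJy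
      have hDyy := h.D_sq y
      refine Pool.Agent.H74.LZ.z_alg (J := J) (L := L y) (z := D L J y * J) (v := c' * c⁻¹)
        (w := c' * c) (b := c * c) (d := d) hJJ y4 hly ?_ ?_ hbb hJv hvw ?_ ?_ ?_ d3 ?_ ?_
      · rw [← y6]; exact y1
      · exact y7
      · rw [hd]; group
      · exact h.comJ d d1.1 d1.2
      · rw [← hk]
        exact (h.comL d1.1 d1.2 d2)
      · -- `w` commutes with `z_y v z_y`
        have h1 : Commute (c' * c) (D L J y * (c' * c) * D L J y) := hone y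
        have h2 : (D L J y * J) * (c' * c⁻¹) * (D L J y * J) =
            (D L J y * (c' * c) * D L J y)⁻¹ := by
          have hDi : (D L J y)⁻¹ = D L J y := inv_eq_of_mul_eq_one_left hDyy
          calc (D L J y * J) * (c' * c⁻¹) * (D L J y * J)
              = D L J y * (J * (c' * c⁻¹)) * (D L J y * J) := by group
            _ = D L J y * (J * (c' * c⁻¹)) * (J * D L J y) := by rw [hDyJ]
            _ = D L J y * (J * (c' * c⁻¹) * J) * D L J y := by group
            _ = D L J y * (c' * c)⁻¹ * D L J y := by rw [hJv]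
            _ = (D L J y)⁻¹ * (c' * c)⁻¹ * (D L J y)⁻¹ := by rw [hDi]
            _ = (D L J y * (c' * c) * D L J y)⁻¹ := by group
        rw [h2]
        exact h1.inv_right.eq
      · -- `v` commutes with `L_y b L_y⁻¹`
        rw [h.one_form74 o y, ← hRw]
        have h1 : Commute (c' * c) (D L J y * (c' * c) * D L J y) := hone y
        have h2 : Commute (c' * c) ((c' * c)⁻¹ * (D L J y * (c' * c) * D L J y)) :=
          (Commute.refl (c' * c)).inv_right.mul_right h1
        set R := rt L J x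
        set W := (c' * c)⁻¹ * (D L J y * (c' * c) * D L J y)
        calc R * (c' * c) * R⁻¹ * (R * W * R⁻¹) = R * ((c' * c) * W) * R⁻¹ := by group
          _ = R * (W * (c' * c)) * R⁻¹ := by rw [h2.eq]
          _ = R * W * R⁻¹ * (R * (c' * c) * R⁻¹) := by group
  have h1 : c ^ 2 = 1 := by rw [pow_two]; exact hcc
  obtain ⟨k, hk'⟩ := hn
  rw [hk', pow_succ, pow_mul, h1, one_pow, one_mul] at hcn
  exact hcn

end AL

end ALoop
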