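import Pool.Agent.H74.LZ.LamZ
import Pool.Agent.H53.AL.Claim
import Pool.Agent.H21.AL.Wb
import Pool.Agent.H81.LO.Odd
import Pool.Agent.H4.NS.Fin

set_option autoImplicit false

/-!
`lam_x` is `1` or `z_x` in a finite simple automorphic loop of even order: the instantiation of
`lam_one_or_z`, with the relation (G) as a hypothesis.
-/

namespace ALoop

open Equiv

variable {Q : Type*} {G : Subgroup (Perm Q)} {L : Q → Perm Q} {J : Perm Q} {e : Q}

namespace AL

/-- conjugation of `z_u` by an inner mapping -/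
theorem zu_conj74 (h : AL G L J e) {g : Perm Q} (hg : g ∈ Inn G e) (u : Q) :
    g * (D L J u * J) * g⁻¹ = D L J (g u) * J := by
  have h1 := h.D_conj hg.1 u
  have h2 := h.comJ g hg.1 hg.2
  have h3 : g * J * g⁻¹ = J := by rw [h2]; group
  calc g * (D L J u * J) * g⁻¹ = (g * D L J u * g⁻¹) * (g * J * g⁻¹) := by group
    _ = D L J (g u) * J := by rw [h1, h3]

/-- conjugation of `lam_u` by an inner mapping -/
theorem lu_conj74 (h : AL G L J e) {g : Perm Q} (hg : g ∈ Inn G e) (u : Q) :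
    g * (L u * L u) * g⁻¹ = L (g u) * L (g u) := by
  have h1 := h.equi g hg.1 hg.2 u
  calc g * (L u * L u) * g⁻¹ = (g * L u * g⁻¹) * (g * L u * g⁻¹) := by group
    _ = _ := by rw [h1]

theorem lu_Inn74 (h : AL G L J e) {u : Q} (hJu : J u = u) : L u * L u ∈ Inn G e := by
  refine ⟨G.mul_mem (h.memL u) (h.memL u), ?_⟩
  show (L u * L u) e = e
  rw [Perm.mul_apply, h.Le, h.LxLx hJu]

theorem inv_pt74 (h : AL G L J e) {g : Perm Q} (hg : g ∈ Inn G e) {u : Q} (hJu : J u = u)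
    (hue : u ≠ e) : J (g u) = g u ∧ g u ≠ e := by
  have h2 := h.comJ g hg.1 hg.2
  refine ⟨?_, ?_⟩
  · have h3 : (J * g) u = (g * J) u := by rw [h2]
    rw [Perm.mul_apply, Perm.mul_apply, hJu] at h3
    exact h3
  · intro h3
    apply hue
    apply g.injective
    rw [h3]
    exact hg.2.symm

/-- a normal set of inner mappings centralised by a nontrivial inner mapping is trivial -/
theorem um74 [Finite Q] (h : AL G L J e) (hcardQ : 2 ∣ Nat.card Q) {A : Set (Perm Q)}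
    (hAI : ∀ a ∈ A, a ∈ Inn G e) (hAn : ∀ g ∈ Inn G e, ∀ a ∈ A, g * a * g⁻¹ ∈ A)
    {b : Perm Q} (hb : b ∈ Inn G e) (hb1 : b ≠ 1) (hba : ∀ a ∈ A, b * a = a * b) :
    ∀ a ∈ A, a = 1 := by
  have hcl : ∀ g ∈ Inn G e, ∀ a ∈ Subgroup.closure A, g * a * g⁻¹ ∈ Subgroup.closure A := by
    intro g hg a ha
    induction ha using Subgroup.closure_induction with
    | mem a ha => exact Subgroup.subset_closure (hAn g hg a ha)
    | one => rw [mul_one, mul_inv_cancel]; exact one_mem _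
    | mul u v _ _ hu hv =>
      have h1 : g * (u * v) * g⁻¹ = (g * u * g⁻¹) * (g * v * g⁻¹) := by group
      rw [h1]; exact mul_mem hu hv
    | inv u _ hu =>
      have h1 : g * u⁻¹ * g⁻¹ = (g * u * g⁻¹)⁻¹ := by group
      rw [h1]; exact inv_mem hu
  have hbc : ∀ a ∈ Subgroup.closure A, ∀ c ∈ Inn G e ⊓ Subgroup.centralizer A, a * c = c * a := by
    intro a ha c hc
    induction ha using Subgroup.closure_induction with
    | mem a ha => exact (Subgroup.mem_centralizer_iff.1 hc.2) a ha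
    | one => rw [one_mul, mul_one]
    | mul u v _ _ hu hv => rw [mul_assoc, hv, ← mul_assoc, hu, mul_assoc]
    | inv u _ hu =>
      have h1 : Commute u c := hu
      exact h1.inv_left.eq
  rcases h.commuting_normal hcardQ (A := Subgroup.closure A)
    (B := Inn G e ⊓ Subgroup.centralizer A) ((Subgroup.closure_le _).2 hAI) hcl inf_le_left
    (by
      rintro g hg a ⟨ha1, ha2⟩
      refine ⟨(Inn G e).mul_mem ((Inn G e).mul_mem hg ha1) ((Inn G e).inv_mem hg), ?_⟩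
      show _ ∈ Subgroup.centralizer A
      rw [Subgroup.mem_centralizer_iff]
      intro c hc
      have h1 := (Subgroup.mem_centralizer_iff.1 ha2) (g⁻¹ * c * g⁻¹⁻¹)
        (hAn g⁻¹ ((Inn G e).inv_mem hg) c hc)
      rw [inv_inv] at h1
      calc c * (g * a * g⁻¹) = g * ((g⁻¹ * c * g) * a) * g⁻¹ := by group
        _ = g * (a * (g⁻¹ * c * g)) * g⁻¹ := by rw [h1]
        _ = g * a * g⁻¹ * c := by group) hbc with h1 | h1
  · intro a ha
    have h2 := Subgroup.subset_closure ha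
    rw [h1] at h2
    exact Subgroup.mem_bot.1 h2
  · exfalso
    have h2 : b ∈ Inn G e ⊓ Subgroup.centralizer A :=
      ⟨hb, Subgroup.mem_centralizer_iff.2 fun a ha => (hba a ha).symm⟩
    rw [h1] at h2
    exact hb1 (Subgroup.mem_bot.1 h2)

/-- (ZIP) -/
theorem zip74 [Finite Q] (h : AL G L J e) (hcardQ : 2 ∣ Nat.card Q) {x : Q} (hJx : J x = x)
    (hxe : x ≠ e) {b : Perm Q} (hb : b ∈ Inn G e) (hodd : Odd (orderOf b))
    (hzb : (D L J x * J) * b * (D L J x * J) = b⁻¹)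
    (hw : ∀ u, J u = u → u ≠ e →
      Commute b ((D L J u * J) * b * (D L J u * J))) : b = 1 := by
  classical
  by_contra hb1
  have hpos := orderOf_pos b
  have hne1 : orderOf b ≠ 1 := fun h1 => hb1 (orderOf_eq_one_iff.1 h1)
  obtain ⟨p, hp, hpd⟩ := Nat.exists_prime_and_dvd hne1
  have : Fact p.Prime := ⟨hp⟩
  have hp2 : p ≠ 2 := by
    rintro rfl
    exact (Nat.not_even_iff_odd.2 hodd) (even_iff_two_dvd.2 hpd)
  obtain ⟨k, hk⟩ := hpd
  set c := b ^ k with hc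
  have hcI : c ∈ Inn G e := (Inn G e).pow_mem hb k
  have hcp : c ^ p = 1 := by rw [hc, ← pow_mul, mul_comm k p, ← hk, pow_orderOf_eq_one]
  have hc1 : c ≠ 1 := by
    intro h1
    have h2 : orderOf b ∣ k := orderOf_dvd_of_pow_eq_one h1
    have hkpos : 0 < k := by
      rcases Nat.eq_zero_or_pos k with h3 | h3
      · rw [h3, mul_zero] at hk; omega
      · exact h3
    have h3 := Nat.le_of_dvd hkpos h2
    have h4 := hp.two_le
    nlinarith
  have conjk : ∀ w : Perm Q, w * w = 1 → w * c * w = (w * b * w) ^ k := by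
    intro w hww
    have hwi : w⁻¹ = w := inv_eq_of_mul_eq_one_left hww
    have h1 := conj_pow (i := k) (a := w) (b := b)
    rw [hwi] at h1
    exact h1.symm
  have hEx : D L J x * J ∈ EE L J e := ⟨x, hJx, hxe, rfl⟩
  let E : Set (Inn G e) := {w | (w : Perm Q) ∈ EE L J e}
  have key := Pool.Agent.H53.AL.claim_normal (M := Inn G e) p hp2 E
    (fun w hw => Subtype.ext (h.EE_sq hw))
    (fun w hw g => h.EE_conj hw g.2)
    ⟨c, hcI⟩ ⟨D L J x * J, h.EE_Inn hEx⟩ (Subtype.ext hcp) hEx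
    (Subtype.ext (by
      show (D L J x * J) * c * (D L J x * J) = c⁻¹
      rw [conjk _ (h.EE_sq hEx), hzb, hc, inv_pow]))
    (by
      rintro ⟨w, hwI⟩ hwE
      obtain ⟨u, hJu, hue, rfl⟩ := hwE
      have h1 := hw u hJu hue
      have h2 := (h1.pow_pow k k)
      rw [← hc, ← conjk _ (h.EE_sq ⟨u, hJu, hue, rfl⟩)] at h2
      exact Subtype.ext h2.eq)
  obtain ⟨N, hN, hNp, hcN⟩ := key
  have hsol : Group.IsSolvable N := by
    have : Finite N := inferInstance
    have := hNp.isNilpotent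
    infer_instance
  have h1 := h.no_solvable hcardQ N hN hsol
  rw [h1, Subgroup.mem_bot] at hcN
  exact hc1 (congrArg Subtype.val hcN)

/-- **`lam_x` is `1` or `z_x`**, from the relation (G). -/
theorem lam_one_or_z_of [Finite Q] (h : AL G L J e) (hcardQ : 2 ∣ Nat.card Q) {x : Q}
    (hJx : J x = x) (hxe : x ≠ e)
    (hzl : Commute (D L J x * J) (L x * L x))
    (hG : ∀ u, J u = u → u ≠ e →
      (L x * L x) * (D L J u * J) * (L x * L x)⁻¹ * (D L J u * J) =
        (D L J x * J) * (L u * L u) * (D L J x * J) * (L u * L u)⁻¹) :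
    L x * L x = 1 ∨ L x * L x = D L J x * J := by
  classical
  have hEx : D L J x * J ∈ EE L J e := ⟨x, hJx, hxe, rfl⟩
  have hzI := h.EE_Inn hEx
  have hzz := h.EE_sq hEx
  have hlI := h.lu_Inn74 hJx
  obtain ⟨b, hb, hb1, hodd, hzb⟩ := h.exists_odd hcardQ hJx hxe
  set z := D L J x * J with hz
  set lam := L x * L x with hlam
  let z' : Inn G e := ⟨z, hzI⟩
  let lam' : Inn G e := ⟨lam, hlI⟩
  have hrel : Pool.Agent.H21.AL.Rel z' lam' := by
    refine Pool.Agent.H21.AL.rel_of_G (Subtype.ext hzz) (Subtype.ext hzl.eq) ?_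
    intro g
    have hx' := h.inv_pt74 g.2 hJx hxe
    have h1 := hG _ hx'.1 hx'.2
    rw [← h.zu_conj74 g.2, ← h.lu_conj74 g.2] at h1
    exact Subtype.ext h1
  obtain ⟨B', hbB, hBc, hBz, hBl, hBo⟩ := Pool.Agent.H21.AL.exists_B (b := (⟨b, hb⟩ : Inn G e))
    hrel (Subtype.ext hzz) (Subtype.ext hzl.eq) (Subtype.ext hzb)
    (by rw [← Subgroup.orderOf_coe]; exact hodd)
  set B : Subgroup (Perm Q) := B'.map (Inn G e).subtype with hB
  have memB : ∀ a ∈ B, ∃ ha : a ∈ Inn G e, (⟨a, ha⟩ : Inn G e) ∈ B' := by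
    rintro _ ⟨a, ha, rfl⟩
    exact ⟨a.2, ha⟩
  have hBI : ∀ a ∈ B, a ∈ Inn G e := fun a ha => (memB a ha).1
  refine Pool.Agent.H74.LZ.lam_one_or_z (U := {u : Q // J u = u ∧ u ≠ e}) (z := z) (lam := lam)
    (zu := fun u => D L J u.1 * J) (lu := fun u => L u.1 * L u.1) (B := B) hzz
    (fun u => h.EE_sq ⟨u.1, u.2.1, u.2.2, rfl⟩) ?_ ?_ ?_ ?_ ?_ ?_ ?_ ?_ ?_ ?_ ?_
  · intro a ha c hc
    obtain ⟨ha1, ha2⟩ := memB a ha
    obtain ⟨hc1, hc2⟩ := memB c hc
    exact congrArg Subtype.val (hBc _ ha2 _ hc2)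
  · intro a ha
    obtain ⟨ha1, ha2⟩ := memB a ha
    exact congrArg Subtype.val (hBz _ ha2)
  · intro a ha
    obtain ⟨ha1, ha2⟩ := memB a ha
    exact ⟨_, hBl _ ha2, rfl⟩
  · intro a ha
    obtain ⟨ha1, ha2⟩ := memB a ha
    have h1 := hBo _ ha2
    rw [← Subgroup.orderOf_coe] at h1
    exact h1
  · intro h1
    have h2 : b ∈ B := ⟨⟨b, hb⟩, hbB, rfl⟩
    rw [h1] at h2
    exact hb1 (Subgroup.mem_bot.1 h2)
  · intro a ha u
    have haI := (Inn G e).inv_mem (hBI a ha)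
    have hu := h.inv_pt74 haI u.2.1 u.2.2
    refine ⟨⟨a⁻¹ u.1, hu⟩, ?_, ?_⟩
    · have h1 := h.zu_conj74 haI u.1
      rw [inv_inv] at h1
      exact h1.symm
    · have h1 := h.lu_conj74 haI u.1
      rw [inv_inv] at h1
      exact h1.symm
  · intro u
    have haI := (Inn G e).inv_mem hlI
    have hu := h.inv_pt74 haI u.2.1 u.2.2
    refine ⟨⟨lam⁻¹ u.1, hu⟩, ?_⟩
    have h1 := h.zu_conj74 haI u.1
    rw [inv_inv] at h1
    exact h1.symm
  · intro u
    exact hG u.1 u.2.1 u.2.2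
  · intro a ha ha1 hcom
    refine h.um74 hcardQ (A := {w | ∃ u, J u = u ∧ u ≠ e ∧ w = L u * L u}) ?_ ?_ (hBI a ha) ha1 ?_
      lam ⟨x, hJx, hxe, rfl⟩
    · rintro _ ⟨u, hJu, -, rfl⟩
      exact h.lu_Inn74 hJu
    · rintro g hg _ ⟨u, hJu, hue, rfl⟩
      obtain ⟨h1, h2⟩ := h.inv_pt74 hg hJu hue
      exact ⟨g u, h1, h2, h.lu_conj74 hg u⟩
    · rintro _ ⟨u, hJu, hue, rfl⟩
      exact hcom ⟨u, hJu, hue⟩
  · intro a ha ha1 hcom
    have h1 := h.um74 hcardQ
      (A := {w | ∃ u, J u = u ∧ u ≠ e ∧ w = (D L J u * J) * (L u * L u)}) (by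
        rintro _ ⟨u, hJu, hue, rfl⟩
        exact (Inn G e).mul_mem (h.EE_Inn ⟨u, hJu, hue, rfl⟩) (h.lu_Inn74 hJu)) (by
        rintro g hg _ ⟨u, hJu, hue, rfl⟩
        obtain ⟨h1, h2⟩ := h.inv_pt74 hg hJu hue
        refine ⟨g u, h1, h2, ?_⟩
        rw [← h.lu_conj74 hg u, ← h.zu_conj74 hg u]
        group) (hBI a ha) ha1 (by
        rintro _ ⟨u, hJu, hue, rfl⟩
        exact hcom ⟨u, hJu, hue⟩)
      (z * lam) ⟨x, hJx, hxe, rfl⟩
    have h2 : lam = z⁻¹ := eq_inv_of_mul_eq_one_right h1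
    rw [h2]
    exact inv_eq_of_mul_eq_one_left hzz
  · intro hcom
    rw [eq_bot_iff]
    intro a ha
    rw [Subgroup.mem_bot]
    have hzi : ∀ u, J u = u → u ≠ e → (D L J u * J)⁻¹ = D L J u * J := fun u hJu hue =>
      inv_eq_of_mul_eq_one_left (h.EE_sq ⟨u, hJu, hue, rfl⟩)
    obtain ⟨ha1, ha2⟩ := memB a ha
    refine h.zip74 hcardQ hJx hxe (hBI a ha) ?_ (congrArg Subtype.val (hBz _ ha2)) ?_
    · have h1 := hBo _ ha2
      rw [← Subgroup.orderOf_coe] at h1
      exact h1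
    · intro u hJu hue
      have h1 := hcom ⟨u, hJu, hue⟩ a ha a ha
      simp only [hzi u hJu hue] at h1
      exact h1.symm

end AL

end ALoop
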