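import Pool.Agent.H74.LZ.Inst
import Pool.Agent.H77.AL.G

set_option autoImplicit false

/-!
**`(L x)²` is `1` or `z_x` for every involution `x`** of a finite simple automorphic loop of even order.
-/

namespace ALoop

open Equiv

variable {Q : Type*} {G : Subgroup (Perm Q)} {L : Q → Perm Q} {J : Perm Q} {e : Q}

namespace AL

theorem zx_lam_comm (h : AL G L J e) {x : Q} (hJx : J x = x) :
    Commute (D L J x * J) (L x * L x) := by
  obtain ⟨h1, h2, h3⟩ := h.sq_inn hJx
  have h4 := (h.D_cent h1 x).2 h3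
  have h5 := h.comJ _ h1 h2
  have h6 : Commute (D L J x) (L x * L x) := h4.symm
  have h7 : Commute J (L x * L x) := h5.symm
  exact h6.mul_left h7

theorem lam_one_or_zx [Finite Q] (h : AL G L J e) (hcardQ : 2 ∣ Nat.card Q) {x : Q}
    (hJx : J x = x) (hxe : x ≠ e) : L x * L x = 1 ∨ L x * L x = D L J x * J :=
  h.lam_one_or_z_of hcardQ hJx hxe (h.zx_lam_comm hJx)
    fun _ hJu hue => h.lam_G hJx hxe hJu hue

end AL

end ALoop
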