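import Pool.Agent.H74.LZ.LemL

/-!
# `lam = 1` or `lam = z` (helper4, helper85): pure group theory
-/

set_option autoImplicit false

namespace Pool.Agent.H74.LZ

theorem comm_of_sq' {M : Type*} [Group M] {a c : M} (ho : Odd (orderOf a))
    (h : a * a * c = c * (a * a)) : a * c = c * a := by
  obtain ⟨k, hk⟩ := ho
  have h1 : Commute (a ^ 2) c := by
    show a ^ 2 * c = c * a ^ 2
    rw [pow_two]; exact h
  have h2 : a = ((a ^ 2) ^ k)⁻¹ := by
    have h3 : a ^ (2 * k + 1) = 1 := by rw [← hk]; exact pow_orderOf_eq_one a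
    rw [pow_succ, pow_mul] at h3
    exact eq_inv_of_mul_eq_one_right h3
  have h3 : Commute a c := by
    rw [h2]
    exact (h1.pow_left k).inv_left
  exact h3.eq

/-- **`lam` is `1` or `z`.** `zu u`, `lu u` are the elements `z_u` and `lam_u`; (UM1), (UM2), (ZIP) are
supplied by the context. -/
theorem lam_one_or_z {M U : Type*} [Group M] {z lam : M} {zu lu : U → M} {B : Subgroup M}
    [Finite B] (hz : z * z = 1) (hs : ∀ u, zu u * zu u = 1)
    (hBc : ∀ a ∈ B, ∀ b ∈ B, a * b = b * a)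
    (hBz : ∀ b ∈ B, z * b * z = b⁻¹) (hBl : ∀ b ∈ B, lam * b * lam⁻¹ ∈ B)
    (hBo : ∀ b ∈ B, Odd (orderOf b)) (hB : B ≠ ⊥)
    (hact : ∀ b ∈ B, ∀ u, ∃ u', zu u' = b⁻¹ * zu u * b ∧ lu u' = b⁻¹ * lu u * b)
    (hactl : ∀ u, ∃ u', zu u' = lam⁻¹ * zu u * lam)
    (hG : ∀ u, lam * zu u * lam⁻¹ * zu u = z * lu u * z * (lu u)⁻¹)
    (UM1 : ∀ b ∈ B, b ≠ 1 → (∀ u, b * lu u = lu u * b) → lam = 1)
    (UM2 : ∀ b ∈ B, b ≠ 1 → (∀ u, b * (zu u * lu u) = (zu u * lu u) * b) → lam = z)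
    (ZIP : (∀ u, ∀ a ∈ B, ∀ b ∈ B, (zu u * a * (zu u)⁻¹) * b = b * (zu u * a * (zu u)⁻¹)) →
      B = ⊥) : lam = 1 ∨ lam = z := by
  have hz' : z⁻¹ = z := inv_eq_of_mul_eq_one_right hz
  have hGb : ∀ u, ∀ b ∈ B, lam * (b⁻¹ * zu u * b) * lam⁻¹ * (b⁻¹ * zu u * b) =
      z * (b⁻¹ * lu u * b) * z * (b⁻¹ * lu u * b)⁻¹ := by
    intro u b hb
    obtain ⟨u', h1, h2⟩ := hact b hb u
    rw [← h1, ← h2]
    exact hG u'
  have hE1 : ∀ u, ∀ b ∈ B, zu u * ((lam * b * lam⁻¹) * b⁻¹) * zu u =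
      ((lam * zu u * lam⁻¹ * zu u)⁻¹ * ((lam * b * lam⁻¹) * b) * (lam * zu u * lam⁻¹ * zu u)) *
        (lu u * (b⁻¹ * b⁻¹) * (lu u)⁻¹) := fun u b hb =>
    e_one hz (hs u) (hBz b hb) (hG u) (hGb u b hb)
  by_contra hcon
  push Not at hcon
  obtain ⟨hl1, hlz⟩ := hcon
  -- case (a)
  have ha : ∀ b ∈ B, lam * b * lam⁻¹ = b → b = 1 := by
    intro b hb hbb
    by_contra hb1
    refine hl1 (UM1 b hb hb1 fun u => ?_)
    have h1 := hE1 u b hb
    rw [hbb, mul_inv_cancel, mul_one, hs u] at h1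
    set del := lam * zu u * lam⁻¹ * zu u with hdel
    have h2 : z * lu u * z = del * lu u := by rw [hdel, hG u]; group
    have h3 : del * lu u * (b * b) = b * b * (del * lu u) := by
      have h4 : (del * lu u) * (b⁻¹ * b⁻¹) = (b⁻¹ * b⁻¹) * (del * lu u) := by
        have h5 : del⁻¹ * (b * b) * del * (lu u * (b⁻¹ * b⁻¹) * (lu u)⁻¹) = 1 := h1.symm
        have h6 : lu u * (b⁻¹ * b⁻¹) * (lu u)⁻¹ = (del⁻¹ * (b * b) * del)⁻¹ :=
          eq_inv_of_mul_eq_one_right h5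
        calc (del * lu u) * (b⁻¹ * b⁻¹)
            = del * (lu u * (b⁻¹ * b⁻¹) * (lu u)⁻¹) * lu u := by group
          _ = del * (del⁻¹ * (b * b) * del)⁻¹ * lu u := by rw [h6]
          _ = (b⁻¹ * b⁻¹) * (del * lu u) := by group
      calc del * lu u * (b * b)
          = (b * b) * ((b⁻¹ * b⁻¹) * (del * lu u)) * (b * b) := by group
        _ = (b * b) * ((del * lu u) * (b⁻¹ * b⁻¹)) * (b * b) := by rw [h4]
        _ = b * b * (del * lu u) := by group
    rw [← h2] at h3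
    have hzb2 : z * (b * b) * z = b⁻¹ * b⁻¹ := by
      calc z * (b * b) * z = (z * b * (z * z) * b * z) := by rw [hz]; group
        _ = (z * b * z) * (z * b * z) := by group
        _ = b⁻¹ * b⁻¹ := by rw [hBz b hb]
    have h7 : lu u * (b⁻¹ * b⁻¹) = (b⁻¹ * b⁻¹) * lu u := by
      have h8 : z * (z * lu u * z * (b * b)) * z = z * (b * b * (z * lu u * z)) * z := by rw [h3]
      have h9 : z * (z * lu u * z * (b * b)) * z = lu u * (b⁻¹ * b⁻¹) := by
        calc z * (z * lu u * z * (b * b)) * z = (z * z) * lu u * (z * (b * b) * z) := by group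
          _ = lu u * (b⁻¹ * b⁻¹) := by rw [hz, hzb2, one_mul]
      have h10 : z * (b * b * (z * lu u * z)) * z = (b⁻¹ * b⁻¹) * lu u := by
        calc z * (b * b * (z * lu u * z)) * z = (z * (b * b) * z) * lu u * (z * z) := by group
          _ = (b⁻¹ * b⁻¹) * lu u := by rw [hz, hzb2, mul_one]
      rw [h9, h10] at h8
      exact h8
    refine comm_of_sq' (hBo b hb) ?_
    calc b * b * lu u = (b * b) * (lu u * (b⁻¹ * b⁻¹)) * (b * b) := by group
      _ = (b * b) * ((b⁻¹ * b⁻¹) * lu u) * (b * b) := by rw [h7]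
      _ = lu u * (b * b) := by group
  -- case (b)
  have hb' : ∀ b ∈ B, lam * b * lam⁻¹ = b⁻¹ → b = 1 := by
    intro b hb hbb
    by_contra hb1
    refine hlz (UM2 b hb hb1 fun u => ?_)
    have h1 := hE1 u b hb
    rw [hbb, inv_mul_cancel, mul_one, inv_mul_cancel, one_mul] at h1
    have hs' : (zu u)⁻¹ = zu u := inv_eq_of_mul_eq_one_right (hs u)
    have h2 : (zu u * lu u) * (b⁻¹ * b⁻¹) = (b⁻¹ * b⁻¹) * (zu u * lu u) := by
      calc (zu u * lu u) * (b⁻¹ * b⁻¹)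
          = zu u * (lu u * (b⁻¹ * b⁻¹) * (lu u)⁻¹) * lu u := by group
        _ = zu u * (zu u * (b⁻¹ * b⁻¹) * zu u) * lu u := by rw [h1]
        _ = (zu u * zu u) * (b⁻¹ * b⁻¹) * (zu u * lu u) := by group
        _ = (b⁻¹ * b⁻¹) * (zu u * lu u) := by rw [hs u, one_mul]
    refine comm_of_sq' (hBo b hb) ?_
    calc b * b * (zu u * lu u)
        = (b * b) * ((zu u * lu u) * (b⁻¹ * b⁻¹)) * (b * b) := by group
      _ = (b * b) * ((b⁻¹ * b⁻¹) * (zu u * lu u)) * (b * b) := by rw [h2]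
      _ = (zu u * lu u) * (b * b) := by group
  -- case (c): the maps are injective, so surjective
  have hsurj : ∀ (f : M → M), (∀ a ∈ B, f a ∈ B) → (∀ a ∈ B, ∀ b ∈ B, f a = f b → a = b) →
      ∀ b ∈ B, ∃ a ∈ B, f a = b := by
    intro f hf hinj b hb
    have h1 : Function.Injective (fun a : B => (⟨f a, hf a a.2⟩ : B)) := by
      intro a c hac
      have h2 : f a = f c := congrArg Subtype.val hac
      exact Subtype.ext (hinj a a.2 c c.2 h2)
    have h2 := Finite.surjective_of_injective h1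
    obtain ⟨a, ha'⟩ := h2 ⟨b, hb⟩
    exact ⟨a, a.2, congrArg Subtype.val ha'⟩
  have he := hsurj (fun b => (lam * b * lam⁻¹) * b⁻¹)
    (fun a ha' => B.mul_mem (hBl a ha') (B.inv_mem ha')) (by
      intro a ha' b hb hab
      have h1 : lam * (b⁻¹ * a) * lam⁻¹ = b⁻¹ * a := by
        have h2 : (lam * a * lam⁻¹) * a⁻¹ = (lam * b * lam⁻¹) * b⁻¹ := hab
        have h3 : (lam * b * lam⁻¹)⁻¹ * (lam * a * lam⁻¹) = b⁻¹ * a := by
          have h4 : lam * a * lam⁻¹ = (lam * b * lam⁻¹) * b⁻¹ * a := by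
            rw [← h2]; group
          rw [h4]; group
        calc lam * (b⁻¹ * a) * lam⁻¹ = (lam * b * lam⁻¹)⁻¹ * (lam * a * lam⁻¹) := by group
          _ = b⁻¹ * a := h3
      have h2 := ha _ (B.mul_mem (B.inv_mem hb) ha') h1
      exact (inv_mul_eq_one.mp h2).symm)
  have hf := hsurj (fun b => (lam * b * lam⁻¹) * b)
    (fun a ha' => B.mul_mem (hBl a ha') ha') (by
      intro a ha' b hb hab
      have h1 : lam * (b⁻¹ * a) * lam⁻¹ = (b⁻¹ * a)⁻¹ := by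
        have h2 : (lam * a * lam⁻¹) * a = (lam * b * lam⁻¹) * b := hab
        have h3 : (lam * b * lam⁻¹)⁻¹ * (lam * a * lam⁻¹) = b * a⁻¹ := by
          have h4 : lam * a * lam⁻¹ = (lam * b * lam⁻¹) * b * a⁻¹ := by
            rw [← h2]; group
          rw [h4]; group
        have h5 : (b⁻¹ * a)⁻¹ = b * a⁻¹ := by
          rw [mul_inv_rev, inv_inv]
          exact hBc _ (B.inv_mem ha') _ hb
        calc lam * (b⁻¹ * a) * lam⁻¹ = (lam * b * lam⁻¹)⁻¹ * (lam * a * lam⁻¹) := by group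
          _ = (b⁻¹ * a)⁻¹ := by rw [h3, h5]
      have h2 := hb' _ (B.mul_mem (B.inv_mem hb) ha') h1
      exact (inv_mul_eq_one.mp h2).symm)
  refine hB (ZIP fun u a ha' b hb => ?_)
  obtain ⟨a₁, ha₁, rfl⟩ := he a ha'
  obtain ⟨b₁, hb₁, rfl⟩ := hf b hb
  obtain ⟨u', hu'⟩ := hactl u
  have h1 : zu u = lam * zu u' * lam⁻¹ := by rw [hu']; group
  rw [h1]
  exact lemma_L hz (hs u') hBc hBz hBl (hGb u') a₁ ha₁ b₁ hb₁

end Pool.Agent.H74.LZ
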