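import Mathlib

/-!
# Lemma L of helper4 (MP_52f71e_al): pure group theory
-/

set_option autoImplicit false

namespace Pool.Agent.H74.LZ

/-- the identity (E1) -/
theorem e_one {M : Type*} [Group M] {z lam s l b : M} (hz : z * z = 1) (hs : s * s = 1)
    (hzb : z * b * z = b⁻¹)
    (hG : lam * s * lam⁻¹ * s = z * l * z * l⁻¹)
    (hGb : lam * (b⁻¹ * s * b) * lam⁻¹ * (b⁻¹ * s * b) =
      z * (b⁻¹ * l * b) * z * (b⁻¹ * l * b)⁻¹) :
    s * ((lam * b * lam⁻¹) * b⁻¹) * s =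
      ((lam * s * lam⁻¹ * s)⁻¹ * ((lam * b * lam⁻¹) * b) * (lam * s * lam⁻¹ * s)) *
        (l * (b⁻¹ * b⁻¹) * l⁻¹) := by
  set del := lam * s * lam⁻¹ * s with hdel
  have hz' : z⁻¹ = z := inv_eq_of_mul_eq_one_right hz
  have hs' : s⁻¹ = s := inv_eq_of_mul_eq_one_right hs
  have h1 : lam * s * lam⁻¹ = del * s := by
    rw [hdel, mul_assoc _ s s, hs, mul_one]
  have h2 : z * l * z = del * l := by
    rw [hG]; group
  have hzbi : z * b⁻¹ * z = b := by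
    have h := congrArg (fun t => t⁻¹) hzb
    simp only [mul_inv_rev, hz', inv_inv] at h
    rw [← mul_assoc] at h
    exact h
  have hL : lam * (b⁻¹ * s * b) * lam⁻¹ * (b⁻¹ * s * b) =
      (lam * b * lam⁻¹)⁻¹ * (del * s) * (lam * b * lam⁻¹) * b⁻¹ * s * b := by
    rw [← h1]; group
  have hR : z * (b⁻¹ * l * b) * z * (b⁻¹ * l * b)⁻¹ =
      b * (del * l) * b⁻¹ * b⁻¹ * l⁻¹ * b := by
    have h3 : z * (b⁻¹ * l * b) * z = (z * b⁻¹ * z) * (z * l * z) * (z * b * z) := by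
      have : z * (b⁻¹ * l * b) * z = z * b⁻¹ * (z * z) * l * (z * z) * b * z := by
        rw [hz]; group
      rw [this]; group
    rw [h3, hzbi, h2, hzb]; group
  rw [hL, hR] at hGb
  have h4 : s * ((lam * b * lam⁻¹) * b⁻¹) * s =
      del⁻¹ * (lam * b * lam⁻¹) *
        ((lam * b * lam⁻¹)⁻¹ * (del * s) * (lam * b * lam⁻¹) * b⁻¹ * s * b) * b⁻¹ := by
    group
  rw [h4, hGb]
  group

/-- a hypothesis-free form of the three homomorphisms -/
theorem hom_comm {M : Type*} [Group M] {E F K : M → M} {B : Subgroup M}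
    (hE : ∀ a ∈ B, ∀ b ∈ B, E (a * b) = E a * E b)
    (hF : ∀ a ∈ B, ∀ b ∈ B, F (a * b) = F a * F b)
    (hK : ∀ a ∈ B, ∀ b ∈ B, K (a * b) = K a * K b)
    (hEFK : ∀ a ∈ B, E a = F a * K a) (hFF : ∀ a ∈ B, ∀ b ∈ B, F a * F b = F b * F a) :
    ∀ a ∈ B, ∀ b ∈ B, E a * F b = F b * E a := by
  intro a ha b hb
  have h1 : F a * F b * (K a * K b) = F a * K a * (F b * K b) := by
    rw [← hF a ha b hb, ← hK a ha b hb, ← hEFK _ (B.mul_mem ha hb), hE a ha b hb, hEFK a ha,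
      hEFK b hb]
  have h2 : F b * K a = K a * F b := by
    have h3 : F a * (F b * K a) * K b = F a * (K a * F b) * K b := by
      calc F a * (F b * K a) * K b = F a * F b * (K a * K b) := by group
        _ = F a * K a * (F b * K b) := h1
        _ = F a * (K a * F b) * K b := by group
    exact mul_left_cancel (mul_right_cancel h3)
  calc E a * F b = F a * (K a * F b) := by rw [hEFK a ha, mul_assoc]
    _ = F a * (F b * K a) := by rw [h2]
    _ = F a * F b * K a := by group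
    _ = F b * F a * K a := by rw [hFF a ha b hb]
    _ = F b * E a := by rw [hEFK a ha]; group

/-- **Lemma L**: `B` abelian, inverted by `z`, normalised by `lam`, and (G) for `s, l` and all their
conjugates under `B`; then the conjugates of the elements `b* b⁻¹` under `lam s lam⁻¹` commute with all
the elements `c* c`, where `b* = lam b lam⁻¹`. -/
theorem lemma_L {M : Type*} [Group M] {z lam s l : M} {B : Subgroup M} (hz : z * z = 1)
    (hs : s * s = 1) (hBc : ∀ a ∈ B, ∀ b ∈ B, a * b = b * a)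
    (hBz : ∀ b ∈ B, z * b * z = b⁻¹) (hBl : ∀ b ∈ B, lam * b * lam⁻¹ ∈ B)
    (hG : ∀ b ∈ B, lam * (b⁻¹ * s * b) * lam⁻¹ * (b⁻¹ * s * b) =
      z * (b⁻¹ * l * b) * z * (b⁻¹ * l * b)⁻¹) :
    ∀ a ∈ B, ∀ b ∈ B,
      ((lam * s * lam⁻¹) * ((lam * a * lam⁻¹) * a⁻¹) * (lam * s * lam⁻¹)⁻¹) *
        ((lam * b * lam⁻¹) * b) =
      ((lam * b * lam⁻¹) * b) *
        ((lam * s * lam⁻¹) * ((lam * a * lam⁻¹) * a⁻¹) * (lam * s * lam⁻¹)⁻¹) := by
  have hs' : s⁻¹ = s := inv_eq_of_mul_eq_one_right hs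
  have hG1 : lam * s * lam⁻¹ * s = z * l * z * l⁻¹ := by
    have h := hG 1 B.one_mem
    simpa using h
  have hfin := hom_comm (B := B)
    (E := fun b => s * ((lam * b * lam⁻¹) * b⁻¹) * s)
    (F := fun b => (lam * s * lam⁻¹ * s)⁻¹ * ((lam * b * lam⁻¹) * b) * (lam * s * lam⁻¹ * s))
    (K := fun b => l * (b⁻¹ * b⁻¹) * l⁻¹)
    (by
      intro a ha b hb
      show s * ((lam * (a * b) * lam⁻¹) * (a * b)⁻¹) * s =
        s * ((lam * a * lam⁻¹) * a⁻¹) * s * (s * ((lam * b * lam⁻¹) * b⁻¹) * s)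
      have h1 : (lam * (a * b) * lam⁻¹) * (a * b)⁻¹ =
          ((lam * a * lam⁻¹) * a⁻¹) * ((lam * b * lam⁻¹) * b⁻¹) := by
        have h2 : (lam * b * lam⁻¹) * a⁻¹ = a⁻¹ * (lam * b * lam⁻¹) :=
          hBc _ (hBl b hb) _ (B.inv_mem ha)
        have h3 : b⁻¹ * a⁻¹ = a⁻¹ * b⁻¹ := hBc _ (B.inv_mem hb) _ (B.inv_mem ha)
        calc (lam * (a * b) * lam⁻¹) * (a * b)⁻¹
            = (lam * a * lam⁻¹) * (lam * b * lam⁻¹) * (b⁻¹ * a⁻¹) := by group
          _ = (lam * a * lam⁻¹) * ((lam * b * lam⁻¹) * a⁻¹) * b⁻¹ := by rw [h3]; group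
          _ = (lam * a * lam⁻¹) * (a⁻¹ * (lam * b * lam⁻¹)) * b⁻¹ := by rw [h2]
          _ = ((lam * a * lam⁻¹) * a⁻¹) * ((lam * b * lam⁻¹) * b⁻¹) := by group
      rw [h1]
      calc s * (((lam * a * lam⁻¹) * a⁻¹) * ((lam * b * lam⁻¹) * b⁻¹)) * s
          = s * ((lam * a * lam⁻¹) * a⁻¹) * (s * s) * ((lam * b * lam⁻¹) * b⁻¹) * s := by
            rw [hs]; group
        _ = s * ((lam * a * lam⁻¹) * a⁻¹) * s * (s * ((lam * b * lam⁻¹) * b⁻¹) * s) := by group)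
    (by
      intro a ha b hb
      show (lam * s * lam⁻¹ * s)⁻¹ * ((lam * (a * b) * lam⁻¹) * (a * b)) * (lam * s * lam⁻¹ * s) =
        (lam * s * lam⁻¹ * s)⁻¹ * ((lam * a * lam⁻¹) * a) * (lam * s * lam⁻¹ * s) *
          ((lam * s * lam⁻¹ * s)⁻¹ * ((lam * b * lam⁻¹) * b) * (lam * s * lam⁻¹ * s))
      have h1 : (lam * (a * b) * lam⁻¹) * (a * b) =
          ((lam * a * lam⁻¹) * a) * ((lam * b * lam⁻¹) * b) := by
        have h2 : (lam * b * lam⁻¹) * a = a * (lam * b * lam⁻¹) := hBc _ (hBl b hb) _ ha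
        calc (lam * (a * b) * lam⁻¹) * (a * b)
            = (lam * a * lam⁻¹) * ((lam * b * lam⁻¹) * a) * b := by group
          _ = (lam * a * lam⁻¹) * (a * (lam * b * lam⁻¹)) * b := by rw [h2]
          _ = ((lam * a * lam⁻¹) * a) * ((lam * b * lam⁻¹) * b) := by group
      rw [h1]
      group)
    (by
      intro a ha b hb
      show l * ((a * b)⁻¹ * (a * b)⁻¹) * l⁻¹ = l * (a⁻¹ * a⁻¹) * l⁻¹ * (l * (b⁻¹ * b⁻¹) * l⁻¹)
      have h1 : (a * b)⁻¹ * (a * b)⁻¹ = (a⁻¹ * a⁻¹) * (b⁻¹ * b⁻¹) := by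
        have h2 : b⁻¹ * a⁻¹ = a⁻¹ * b⁻¹ := hBc _ (B.inv_mem hb) _ (B.inv_mem ha)
        calc (a * b)⁻¹ * (a * b)⁻¹ = (b⁻¹ * a⁻¹) * (b⁻¹ * a⁻¹) := by group
          _ = (a⁻¹ * b⁻¹) * (a⁻¹ * b⁻¹) := by rw [h2]
          _ = a⁻¹ * (b⁻¹ * a⁻¹) * b⁻¹ := by group
          _ = a⁻¹ * (a⁻¹ * b⁻¹) * b⁻¹ := by rw [h2]
          _ = (a⁻¹ * a⁻¹) * (b⁻¹ * b⁻¹) := by group
      rw [h1]; group)
    (by
      intro b hb
      exact e_one hz hs (hBz b hb) hG1 (hG b hb))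
    (by
      intro a ha b hb
      show (lam * s * lam⁻¹ * s)⁻¹ * ((lam * a * lam⁻¹) * a) * (lam * s * lam⁻¹ * s) *
          ((lam * s * lam⁻¹ * s)⁻¹ * ((lam * b * lam⁻¹) * b) * (lam * s * lam⁻¹ * s)) =
        (lam * s * lam⁻¹ * s)⁻¹ * ((lam * b * lam⁻¹) * b) * (lam * s * lam⁻¹ * s) *
          ((lam * s * lam⁻¹ * s)⁻¹ * ((lam * a * lam⁻¹) * a) * (lam * s * lam⁻¹ * s))
      have h1 : ((lam * a * lam⁻¹) * a) * ((lam * b * lam⁻¹) * b) =
          ((lam * b * lam⁻¹) * b) * ((lam * a * lam⁻¹) * a) :=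
        hBc _ (B.mul_mem (hBl a ha) ha) _ (B.mul_mem (hBl b hb) hb)
      calc _ = (lam * s * lam⁻¹ * s)⁻¹ * (((lam * a * lam⁻¹) * a) * ((lam * b * lam⁻¹) * b)) *
            (lam * s * lam⁻¹ * s) := by group
        _ = (lam * s * lam⁻¹ * s)⁻¹ * (((lam * b * lam⁻¹) * b) * ((lam * a * lam⁻¹) * a)) *
            (lam * s * lam⁻¹ * s) := by rw [h1]
        _ = _ := by group)
  intro a ha b hb
  have h1 := hfin a ha b hb
  set del := lam * s * lam⁻¹ * s with hdel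
  have h2 : lam * s * lam⁻¹ = del * s := by
    rw [hdel, mul_assoc _ s s, hs, mul_one]
  rw [h2]
  have h3 : (del * s)⁻¹ = s * del⁻¹ := by rw [mul_inv_rev, hs']
  rw [h3]
  calc del * s * ((lam * a * lam⁻¹) * a⁻¹) * (s * del⁻¹) * ((lam * b * lam⁻¹) * b)
      = del * (s * ((lam * a * lam⁻¹) * a⁻¹) * s * (del⁻¹ * ((lam * b * lam⁻¹) * b) * del)) *
          del⁻¹ := by group
    _ = del * (del⁻¹ * ((lam * b * lam⁻¹) * b) * del * (s * ((lam * a * lam⁻¹) * a⁻¹) * s)) *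
          del⁻¹ := by rw [h1]
    _ = ((lam * b * lam⁻¹) * b) * (del * s * ((lam * a * lam⁻¹) * a⁻¹) * (s * del⁻¹)) := by group

end Pool.Agent.H74.LZ
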