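import Pool.Agent.H74.LZ.End
import Pool.Agent.H38.FT.Br

set_option autoImplicit false

/-!
**A finite simple automorphic loop of even order which is not of exponent two is associative.**
-/

namespace ALoop

open Equiv

variable {Q : Type*} {G : Subgroup (Perm Q)} {L : Q → Perm Q} {J : Perm Q} {e : Q}

namespace AL

theorem kx_inv74 (h : AL G L J e) {x : Q} {c : Perm Q} (o : KX G L J e x c) :
    KX G L J e x c⁻¹ := by
  obtain ⟨n, hn, hcn⟩ := o.odd
  refine ⟨o.Iv, (Inn G e).inv_mem o.mem, ⟨n, hn, by rw [inv_pow, hcn, inv_one]⟩, ?_⟩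
  have hDi : (D L J x)⁻¹ = D L J x := inv_eq_of_mul_eq_one_left (h.D_sq x)
  calc D L J x * c⁻¹ * D L J x = (D L J x)⁻¹ * c⁻¹ * (D L J x)⁻¹ := by rw [hDi]
    _ = (D L J x * c * D L J x)⁻¹ := by group
    _ = c⁻¹⁻¹ := by rw [o.inv]

/-- the case `L_x² = 1` -/
theorem lam_one_end74 [Finite Q] (h : AL G L J e) (hna : ¬ Assoc L) {x : Q} {c : Perm Q}
    (o : KX G L J e x c) (hl : L x * L x = 1) : c = 1 := by
  obtain ⟨hJx, hxe⟩ := o.Iv
  obtain ⟨p1, p2, p3, p4⟩ := h.b_pr o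
  obtain ⟨k1, k2⟩ := h.br_k_one o
  have o' := h.kx_inv74 o
  obtain ⟨k1', k2'⟩ := h.br_k_one o'
  have hpi : pr L x c⁻¹ = (pr L x c)⁻¹ := by unfold pr; group
  rw [hpi] at k1' k2'
  set s := sp L x c with hs
  set s' := sp L x c⁻¹ with hs'
  set c' := pr L x c with hc'
  have cc : Commute c' c := p4
  have hR' : rt L J s' = (c' * c)⁻¹ := by
    rw [k2', mul_inv_rev]
    exact (cc.inv_inv).eq
  have hL' : L s' = (L s)⁻¹ := by
    rw [k1', k1, mul_inv_rev]
    rw [inv_inv]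
    exact (cc.inv_left).eq
  -- `w` commutes with `L_y`, `y` in the class of `x`
  have hw : ∀ g ∈ Inn G e, (c' * c) * L (g x) = L (g x) * (c' * c) := by
    intro g hg
    obtain ⟨hJy, hye⟩ := h.inv_pt74 hg hJx hxe
    set y := g x with hy
    have hly : L y * L y = 1 := by
      rw [hy, ← h.lu_conj74 hg, hl, mul_one, mul_inv_cancel]
    obtain ⟨d1, d2, d3, n, hn, hdn⟩ := h.br_four_d o y
    rw [← hc'] at d1 d2 d3 hdn
    set d := (L y)⁻¹ * (c' * c) * L y * (c' * c)⁻¹ with hd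
    have hLyy : L y y = e := h.LxLx hJy
    have hdy : d y = y := by
      have e1 : (c' * c)⁻¹ y = L y s' := by
        rw [← hR']
        exact h.R_apply _ _
      have e2 : L y (L y s') = s' := by
        have h1 := congrArg (fun f : Perm Q => f s') hly
        simpa [Perm.mul_apply] using h1
      have e3 : (c' * c) s' = e := by
        rw [← k2]
        have h1 : rt L J s s' = L s' s := h.R_apply _ _
        rw [h1, hL', Perm.inv_eq_iff_eq]
        exact (h.Le s).symm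
      have e4 : (L y)⁻¹ e = y := by
        rw [Perm.inv_eq_iff_eq]; exact hLyy.symm
      show (L y)⁻¹ ((c' * c) (L y ((c' * c)⁻¹ y))) = y
      rw [e1, e2, e3, e4]
    have hdL : d * L y = L y * d := h.comL d1.1 d1.2 hdy
    exact Pool.Agent.H74.LZ.one_alg hly (by rw [hd]; group) hdL hn hdn
  have hwG : c' * c ∈ G := G.mul_mem p1 o.mem.1
  have hw1 : c' * c = 1 := by
    refine h.cent_set hna (A := {a | ∃ g ∈ Inn G e, a = L (g x)}) ?_ ?_ (g := L x)
      ⟨1, (Inn G e).one_mem, rfl⟩ ?_ hwG ?_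
    · rintro _ ⟨g, -, rfl⟩
      exact h.memL _
    · rintro g hg hge _ ⟨k, hk, rfl⟩
      refine ⟨g * k, (Inn G e).mul_mem ⟨hg, hge⟩ hk, ?_⟩
      rw [h.equi g hg hge]
      rfl
    · rw [h.Le]; exact hxe
    · rintro _ ⟨g, hg, rfl⟩
      exact hw g hg
  have hci : c' = c⁻¹ := eq_inv_of_mul_eq_one_left hw1
  rw [hci] at p2
  have h1 : D L J x * c⁻¹ * D L J x = c⁻¹ := by
    rw [← p2, mul_assoc, h.D_sq, mul_one]
  have h2 := o'.inv
  rw [h1, inv_inv] at h2
  have h3 : c * c = 1 := by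
    calc c * c = c * c⁻¹ := by rw [h2]
      _ = 1 := mul_inv_cancel c
  obtain ⟨n, hn, hcn⟩ := o.odd
  obtain ⟨k, hk'⟩ := hn
  rw [hk', pow_succ, pow_mul, pow_two, h3, one_pow, one_mul] at hcn
  exact hcn

/-- **THE THEOREM** -/
theorem assoc_of_even74 [Finite Q] (h : AL G L J e) (hcardQ : 2 ∣ Nat.card Q) : Assoc L := by
  by_contra hna
  obtain ⟨x, hxe, hJx⟩ := h.exists_inv_pt hcardQ
  obtain ⟨c, hc, hc1, hodd, hzc⟩ := h.exists_odd hcardQ hJx hxe
  have o : KX G L J e x c := by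
    refine ⟨⟨hJx, hxe⟩, hc, ⟨orderOf c, hodd, pow_orderOf_eq_one c⟩, ?_⟩
    have hcJ : c * J = J * c := h.comJ c hc.1 hc.2
    calc D L J x * c * D L J x = D L J x * c * (J * J) * D L J x := by rw [h.JJ1, mul_one]
      _ = D L J x * (c * J) * (J * D L J x) := by group
      _ = D L J x * (J * c) * (D L J x * J) := by rw [hcJ, h.Dx_J hJx]
      _ = (D L J x * J) * c * (D L J x * J) := by group
      _ = c⁻¹ := hzc
  rcases h.lam_one_or_zx hcardQ hJx hxe with hl | hl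
  · exact hc1 (h.lam_one_end74 hna o hl)
  · exact hc1 (h.lam_z_end74 hcardQ o hl (h.br_one_w o) (h.br_k_one o).1 fun q =>
      ⟨(h.br_four_d o q).1, (h.br_four_d o q).2.1, (h.br_four_d o q).2.2.1⟩)

end AL

end ALoop
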